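import Pool.Agent.H131R5.BZ6

set_option autoImplicit false

/-!
Moments of the Barnes multiple zeta function, part 1: an exponential bound for the continuation
in a vertical strip.
-/

namespace Pool.Agent.V11154.BM

open Finset Filter Topology MeasureTheory Complex Set
open Pool.Agent.H131R5.BZ

noncomputable section

lemma norm_sin_le (z : ℂ) (hz : 0 ≤ z.im) : ‖Complex.sin z‖ ≤ Real.exp z.im := by
  have h : Complex.sin z = (cexp (-z * I) - cexp (z * I)) * I / 2 := rfl
  rw [h, norm_div, norm_mul, Complex.norm_I, mul_one]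
  have h1 : ‖cexp (-z * I)‖ = Real.exp z.im := by
    rw [Complex.norm_exp]; simp
  have h2 : ‖cexp (z * I)‖ = Real.exp (-z.im) := by
    rw [Complex.norm_exp]; simp
  have h3 : ‖cexp (-z * I) - cexp (z * I)‖ ≤ Real.exp z.im + Real.exp (-z.im) := by
    refine (norm_sub_le _ _).trans ?_
    rw [h1, h2]
  have h4 : Real.exp (-z.im) ≤ Real.exp z.im := Real.exp_le_exp.mpr (by linarith)
  have h5 : ‖(2 : ℂ)‖ = 2 := by simp
  rw [h5, div_le_iff₀ (by norm_num)]
  linarith

lemma norm_Gamma_le {z : ℂ} (h1 : 1 ≤ z.re) (h4 : z.re ≤ 4) : ‖Complex.Gamma z‖ ≤ 7 := by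
  have hz : 0 < z.re := by linarith
  rw [Complex.Gamma_eq_integral hz, Complex.GammaIntegral]
  have i1 := Real.GammaIntegral_convergent (s := 1) one_pos
  have i4 := Real.GammaIntegral_convergent (s := 4) (by norm_num)
  have e1 := Real.Gamma_eq_integral (s := 1) one_pos
  have e4 := Real.Gamma_eq_integral (s := 4) (by norm_num)
  have g1 : Real.Gamma 1 = 1 := Real.Gamma_one
  have g4 : Real.Gamma 4 = 6 := by
    have h : (4 : ℝ) = ((3 : ℕ) : ℝ) + 1 := by norm_num
    rw [h, Real.Gamma_nat_eq_factorial]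
    norm_num [Nat.factorial]
  calc ‖∫ x in Ioi (0 : ℝ), ((Real.exp (-x) : ℝ) : ℂ) * (x : ℂ) ^ (z - 1)‖
      ≤ ∫ x in Ioi (0 : ℝ), (Real.exp (-x) * x ^ ((1 : ℝ) - 1) + Real.exp (-x) * x ^ ((4 : ℝ) - 1)) := by
        refine norm_integral_le_of_norm_le (i1.add i4) ?_
        filter_upwards [self_mem_ae_restrict measurableSet_Ioi] with x hx
        have hx0 : (0 : ℝ) < x := hx
        rw [norm_mul, Complex.norm_real, Real.norm_of_nonneg (Real.exp_pos _).le,
          Complex.norm_cpow_eq_rpow_re_of_pos hx0, ← mul_add]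
        refine mul_le_mul_of_nonneg_left ?_ (Real.exp_pos _).le
        simp only [sub_re, one_re]
        rcases le_total x 1 with hx1 | hx1
        · have : x ^ (z.re - 1) ≤ x ^ ((1 : ℝ) - 1) :=
            Real.rpow_le_rpow_of_exponent_ge hx0 hx1 (by linarith)
          have h0 : 0 ≤ x ^ ((4 : ℝ) - 1) := Real.rpow_nonneg hx0.le _
          linarith
        · have : x ^ (z.re - 1) ≤ x ^ ((4 : ℝ) - 1) :=
            Real.rpow_le_rpow_of_exponent_le hx1 (by linarith)
          have h0 : 0 ≤ x ^ ((1 : ℝ) - 1) := Real.rpow_nonneg hx0.le _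
          linarith
    _ = 7 := by
        rw [integral_add i1 i4, ← e1, ← e4, g1, g4]; norm_num

/-- an exponential bound for `1/Γ` -/
lemma norm_inv_Gamma_le {s : ℂ} (h1 : 1 ≤ s.re) (h4 : s.re ≤ 4) (hi : 1 ≤ s.im) :
    ‖(Complex.Gamma s)⁻¹‖ ≤ 7 * Real.exp (4 * s.im) := by
  have hsin : Complex.sin (Real.pi * s) ≠ 0 := by
    intro h
    rw [Complex.sin_eq_zero_iff] at h
    obtain ⟨k, hk⟩ := h
    have h2 := congrArg Complex.im hk
    have h3 : Real.pi * s.im = 0 := by simpa using h2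
    have h5 : 0 < Real.pi * s.im := mul_pos Real.pi_pos (by linarith)
    linarith
  have hG : Complex.Gamma s ≠ 0 := Complex.Gamma_ne_zero_of_re_pos (by linarith)
  have hrefl := Complex.Gamma_mul_Gamma_one_sub s
  have hinv : (Complex.Gamma s)⁻¹ = Complex.Gamma (1 - s) * Complex.sin (Real.pi * s) / Real.pi := by
    have hpi : (Real.pi : ℂ) ≠ 0 := by exact_mod_cast Real.pi_ne_zero
    rw [eq_div_iff hsin] at hrefl
    generalize Complex.sin (Real.pi * s) = S at hrefl
    rw [eq_div_iff hpi, ← hrefl]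
    field_simp
  -- shift of Gamma(1-s)
  have hne : ∀ k : ℕ, 1 ≤ ‖(k : ℂ) - s‖ := by
    intro k
    have : |((k : ℂ) - s).im| ≤ ‖(k : ℂ) - s‖ := Complex.abs_im_le_norm _
    have h3 : ((k : ℂ) - s).im = -s.im := by simp
    rw [h3, abs_neg, abs_of_nonneg (by linarith)] at this
    linarith
  have hne0 : ∀ k : ℕ, (k : ℂ) - s ≠ 0 := by
    intro k h
    have := hne k
    rw [h, norm_zero] at this
    linarith
  have hstep : ∀ k : ℕ, ‖Complex.Gamma ((k : ℂ) - s)‖ ≤ ‖Complex.Gamma (((k + 1 : ℕ) : ℂ) - s)‖ := by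
    intro k
    have h2 := Complex.Gamma_add_one ((k : ℂ) - s) (hne0 k)
    have h3 : ((k + 1 : ℕ) : ℂ) - s = (k : ℂ) - s + 1 := by push_cast; ring
    rw [h3, h2, norm_mul]
    exact le_mul_of_one_le_left (norm_nonneg _) (hne k)
  have hG1 : ‖Complex.Gamma (1 - s)‖ ≤ 7 := by
    have h2 := (((hstep 1).trans (hstep 2)).trans (hstep 3)).trans (hstep 4)
    have h3 : ‖Complex.Gamma (((4 + 1 : ℕ) : ℂ) - s)‖ ≤ 7 := by
      apply norm_Gamma_le
      · simp; linarith
      · simp; linarith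
    have h4' : ((1 : ℕ) : ℂ) - s = 1 - s := by simp
    rw [h4'] at h2
    exact h2.trans h3
  rw [hinv, norm_div, norm_mul]
  have hs := norm_sin_le (Real.pi * s) (by
    simp
    exact mul_nonneg Real.pi_pos.le (by linarith))
  have him : ((Real.pi : ℂ) * s).im = Real.pi * s.im := by simp
  rw [him] at hs
  have hpi4 : Real.exp (Real.pi * s.im) ≤ Real.exp (4 * s.im) := by
    apply Real.exp_le_exp.mpr
    have := Real.pi_le_four
    nlinarith
  have hpin : (1 : ℝ) ≤ ‖((Real.pi : ℝ) : ℂ)‖ := by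
    rw [Complex.norm_real, Real.norm_of_nonneg Real.pi_pos.le]
    linarith [Real.pi_gt_three]
  calc ‖Complex.Gamma (1 - s)‖ * ‖Complex.sin (Real.pi * s)‖ / ‖((Real.pi : ℝ) : ℂ)‖
      ≤ ‖Complex.Gamma (1 - s)‖ * ‖Complex.sin (Real.pi * s)‖ := div_le_self (by positivity) hpin
    _ ≤ 7 * Real.exp (4 * s.im) := by
        have h0 : 0 ≤ ‖Complex.sin (Real.pi * s)‖ := norm_nonneg _
        have h6 := hs.trans hpi4
        gcongr

end

end Pool.Agent.V11154.BM
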