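import Pool.Agent.V11154.BM1

set_option autoImplicit false

/-!
Moments of the Barnes multiple zeta function, part 2: every continuation is bounded by
`D exp(4 t)` in the strip `3/2 ≤ σ ≤ 4`, `t ≥ 1` (three weights).
-/

namespace Pool.Agent.V11154.BM

open Finset Filter Topology MeasureTheory Complex Set
open Pool.Agent.H131R5.BZ

noncomputable section

lemma grow {a : ℝ} (ha : 0 < a) {w : Fin 3 → ℝ} (hw : ∀ j, 0 < w j) {c : ℕ → ℂ}
    (hc : ∀ N : ℕ, (fun t : ℝ => hh a w t - ∑ k ∈ range N, c k * (t : ℂ) ^ k)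
      =O[𝓝[>] 0] fun t : ℝ => t ^ (-(-(N : ℝ)))) :
    ∃ D : ℝ, 0 ≤ D ∧ ∀ x y : ℝ, 3 / 2 ≤ x → x ≤ 4 → 1 ≤ y →
      ‖FF a w c ((x : ℂ) + (y : ℂ) * I)‖ ≤ D * Real.exp (4 * y) := by
  have m1 := hN_conv ha hw hc 2 (s := ((-(3 / 2) : ℝ) : ℂ)) (by
    rw [Complex.ofReal_re]; norm_num)
  have m2 := hN_conv ha hw hc 2 (s := ((1 : ℝ) : ℂ)) (by
    rw [Complex.ofReal_re]; norm_num)
  have n1 := m1.norm
  have n2 := m2.norm
  set B : ℝ := ∫ t in Ioi (0 : ℝ), (‖(t : ℂ) ^ (((-(3 / 2) : ℝ) : ℂ) - 1) • hN a w c 2 t‖ +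
    ‖(t : ℂ) ^ (((1 : ℝ) : ℂ) - 1) • hN a w c 2 t‖) with hB
  have hB0 : 0 ≤ B := integral_nonneg (fun t => by positivity)
  have hmel : ∀ z : ℂ, -(3 / 2) ≤ z.re → z.re ≤ 1 → ‖mellin (hN a w c 2) z‖ ≤ B := by
    intro z hz1 hz2
    unfold mellin
    refine norm_integral_le_of_norm_le (n1.add n2) ?_
    filter_upwards [self_mem_ae_restrict measurableSet_Ioi] with t ht
    have ht0 : (0 : ℝ) < t := ht
    simp only [norm_smul, Complex.norm_cpow_eq_rpow_re_of_pos ht0]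
    rw [← add_mul]
    refine mul_le_mul_of_nonneg_right ?_ (norm_nonneg _)
    simp only [sub_re, one_re, Complex.ofReal_re]
    rcases le_total t 1 with h | h
    · have : t ^ (z.re - 1) ≤ t ^ (-(3 / 2) - 1 : ℝ) :=
        Real.rpow_le_rpow_of_exponent_ge ht0 h (by linarith)
      exact this.trans (le_add_of_nonneg_right (Real.rpow_nonneg ht0.le _))
    · have : t ^ (z.re - 1) ≤ t ^ ((1 : ℝ) - 1) :=
        Real.rpow_le_rpow_of_exponent_le h (by linarith)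
      exact this.trans (le_add_of_nonneg_left (Real.rpow_nonneg ht0.le _))
  refine ⟨7 * (B + ‖c 0‖ + ‖c 1‖), by positivity, ?_⟩
  intro x y hx1 hx4 hy
  set s : ℂ := (x : ℂ) + (y : ℂ) * I with hs
  have hre : s.re = x := by simp [hs]
  have him : s.im = y := by simp [hs]
  have h1 : FF a w c s = FN a w c 2 s := FF_eq ha hw hc 2 (by rw [hre]; norm_num; linarith)
  rw [h1]
  unfold FN
  rw [Finset.sum_range_succ, Finset.sum_range_one]
  have hk : ∀ k : ℕ, 1 ≤ ‖s - ((3 : ℕ) : ℂ) + k‖ := by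
    intro k
    have h2 : |(s - ((3 : ℕ) : ℂ) + k).im| ≤ ‖s - ((3 : ℕ) : ℂ) + k‖ := Complex.abs_im_le_norm _
    have h3 : (s - ((3 : ℕ) : ℂ) + k).im = y := by simp [him]
    rw [h3, abs_of_nonneg (by linarith)] at h2
    linarith
  have hk0 : ∀ k : ℕ, s - ((3 : ℕ) : ℂ) + k ≠ 0 := by
    intro k h
    have := hk k
    rw [h, norm_zero] at this
    linarith
  have hG := norm_inv_Gamma_le (s := s) (by rw [hre]; linarith) (by rw [hre]; linarith)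
    (by rw [him]; exact hy)
  rw [him] at hG
  have hQ : ∀ k : ℕ, ‖Qk 3 k s‖ ≤ 7 * Real.exp (4 * y) := by
    intro k
    rw [Qk_eq 3 k (hk0 k), norm_mul, norm_div, norm_one]
    have : 1 / ‖s - ((3 : ℕ) : ℂ) + k‖ ≤ 1 := by
      rw [div_le_one (by linarith [hk k])]
      exact hk k
    calc ‖(Complex.Gamma s)⁻¹‖ * (1 / ‖s - ((3 : ℕ) : ℂ) + k‖)
        ≤ ‖(Complex.Gamma s)⁻¹‖ * 1 := by gcongr
      _ ≤ _ := by rw [mul_one]; exact hG
  have hM := hmel (s - ((3 : ℕ) : ℂ)) (by simp [hre]; linarith) (by simp [hre]; linarith)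
  calc ‖(Complex.Gamma s)⁻¹ * mellin (hN a w c 2) (s - ((3 : ℕ) : ℂ)) +
        (c 0 * Qk 3 0 s + c 1 * Qk 3 1 s)‖
      ≤ ‖(Complex.Gamma s)⁻¹ * mellin (hN a w c 2) (s - ((3 : ℕ) : ℂ))‖ +
        ‖c 0 * Qk 3 0 s + c 1 * Qk 3 1 s‖ := norm_add_le _ _
    _ ≤ ‖(Complex.Gamma s)⁻¹‖ * ‖mellin (hN a w c 2) (s - ((3 : ℕ) : ℂ))‖ +
        (‖c 0‖ * ‖Qk 3 0 s‖ + ‖c 1‖ * ‖Qk 3 1 s‖) := by
        rw [norm_mul]
        gcongr
        refine (norm_add_le _ _).trans ?_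
        rw [norm_mul, norm_mul]
    _ ≤ (7 * Real.exp (4 * y)) * B + (‖c 0‖ * (7 * Real.exp (4 * y)) +
        ‖c 1‖ * (7 * Real.exp (4 * y))) := by
        have e0 : 0 ≤ 7 * Real.exp (4 * y) := by positivity
        gcongr
        · exact hQ 0
        · exact hQ 1
    _ = 7 * (B + ‖c 0‖ + ‖c 1‖) * Real.exp (4 * y) := by ring

/-- two continuations agree in the upper half plane -/
lemma unique_upper {r : ℕ} {a : ℝ} {w : Fin r → ℝ} {F G : ℂ → ℂ}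
    (hF : DifferentiableOn ℂ F {s : ℂ | ∀ k : ℕ, 1 ≤ k → k ≤ r → s ≠ (k : ℂ)})
    (hG : DifferentiableOn ℂ G {s : ℂ | ∀ k : ℕ, 1 ≤ k → k ≤ r → s ≠ (k : ℂ)})
    (hF2 : ∀ s : ℂ, (r : ℝ) < s.re →
        HasSum (fun m : Fin r → ℕ => ((lam a w m : ℝ) : ℂ) ^ (-s)) (F s))
    (hG2 : ∀ s : ℂ, (r : ℝ) < s.re →
        HasSum (fun m : Fin r → ℕ => ((lam a w m : ℝ) : ℂ) ^ (-s)) (G s)) :
    ∀ s : ℂ, 0 < s.im → F s = G s := by
  have hopen : IsOpen {s : ℂ | 0 < s.im} := isOpen_lt continuous_const Complex.continuous_im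
  have hsub : {s : ℂ | 0 < s.im} ⊆ {s : ℂ | ∀ k : ℕ, 1 ≤ k → k ≤ r → s ≠ (k : ℂ)} := by
    intro z hz k _ _ hzk
    have hz' : 0 < z.im := hz
    rw [hzk] at hz'
    simp at hz'
  have aF : AnalyticOnNhd ℂ F {s : ℂ | 0 < s.im} := (hF.mono hsub).analyticOnNhd hopen
  have aG : AnalyticOnNhd ℂ G {s : ℂ | 0 < s.im} := (hG.mono hsub).analyticOnNhd hopen
  have hconv : IsPreconnected {s : ℂ | 0 < s.im} := by
    apply Convex.isPreconnected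
    exact convex_halfSpace_im_gt 0
  have hz0 : ((r : ℂ) + 1 + I) ∈ {s : ℂ | 0 < s.im} := by
    simp
  have heq : F =ᶠ[𝓝 ((r : ℂ) + 1 + I)] G := by
    have h1 : ∀ᶠ z in 𝓝 ((r : ℂ) + 1 + I), (r : ℝ) < z.re := by
      refine (continuous_re.tendsto _).eventually (lt_mem_nhds ?_)
      simp
    filter_upwards [h1] with z hz
    exact (hF2 z hz).unique (hG2 z hz)
  exact fun s hs => aF.eqOn_of_preconnected_of_eventuallyEq aG hconv hz0 heq hs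

/-- every continuation grows at most exponentially in the strip -/
lemma grow' {a : ℝ} (ha : 0 < a) {w : Fin 3 → ℝ} (hw : ∀ j, 0 < w j) {F : ℂ → ℂ}
    (hF : DifferentiableOn ℂ F {s : ℂ | ∀ k : ℕ, 1 ≤ k → k ≤ 3 → s ≠ (k : ℂ)})
    (hF2 : ∀ s : ℂ, ((3 : ℕ) : ℝ) < s.re →
        HasSum (fun m : Fin 3 → ℕ => ((lam a w m : ℝ) : ℂ) ^ (-s)) (F s)) :
    ∃ D : ℝ, 0 ≤ D ∧ ∀ x y : ℝ, 3 / 2 ≤ x → x ≤ 4 → 1 ≤ y →
      ‖F ((x : ℂ) + (y : ℂ) * I)‖ ≤ D * Real.exp (4 * y) := by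
  obtain ⟨c, hc⟩ := exists_taylor a hw
  obtain ⟨D, hD, h⟩ := grow ha hw hc
  refine ⟨D, hD, fun x y h1 h2 h3 => ?_⟩
  have := unique_upper (r := 3) hF
    (fun s hs => (FF_diff ha hw hc hs).differentiableWithinAt) hF2
    (fun s hs => FF_series ha hw hc hs) ((x : ℂ) + (y : ℂ) * I) (by simp; linarith)
  rw [this]
  exact h x y h1 h2 h3

end

end Pool.Agent.V11154.BM
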