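import Pool.Agent.V11154.BM2

set_option autoImplicit false

/-!
Moments of the Barnes multiple zeta function, part 3: a bound for the first absolute moment on the
line `σ = σ0` bounds the number of frequencies in a short window.
-/

namespace Pool.Agent.V11154.BM

open Finset Filter Topology MeasureTheory Complex Set
open Pool.Agent.H131R5.BZ

noncomputable section

/-- integration by parts against the Gaussian -/
lemma gauss_moment {g : ℝ → ℝ} (hg : ContinuousOn g (Ioi 0))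
    {M δ κ : ℝ} (hM : 0 ≤ M) (hδ : 0 < δ) (hκ : 0 < κ)
    (hmom : ∀ T : ℝ, 1 ≤ T → ∫ y in (1 : ℝ)..T, g y ≤ M * T ^ (1 + δ)) :
    ∀ᶠ T : ℝ in atTop, ∫ y in (1 : ℝ)..T, g y * Real.exp (-κ * y ^ 2) ≤
      M * (1 + κ ^ (-(δ + 1) / 2) * Real.Gamma ((3 + δ) / 2)) := by
  filter_upwards [tail_small (ε := 1 + δ) hκ, eventually_ge_atTop (1 : ℝ)] with T hT hT1
  have hpos : ∀ x ∈ Set.uIcc (1 : ℝ) T, (0 : ℝ) < x := by
    intro x hx
    rw [Set.uIcc_of_le hT1] at hx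
    linarith [hx.1]
  have hcat : ∀ x : ℝ, 0 < x → ContinuousAt g x := fun x hx =>
    hg.continuousAt (Ioi_mem_nhds hx)
  have hint : ∀ x : ℝ, 1 ≤ x → IntervalIntegrable g volume 1 x := by
    intro x hx
    apply ContinuousOn.intervalIntegrable
    refine hg.mono ?_
    intro y hy
    rw [Set.uIcc_of_le hx] at hy
    have : (0 : ℝ) < y := by linarith [hy.1]
    exact this
  have hint' : IntervalIntegrable g volume 1 T := hint T hT1
  have hG : ∀ x ∈ Set.uIcc (1 : ℝ) T, HasDerivAt (fun u => ∫ y in (1 : ℝ)..u, g y) (g x) x := by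
    intro x hx
    have hx0 := hpos x hx
    rw [Set.uIcc_of_le hT1] at hx
    refine intervalIntegral.integral_hasDerivAt_right (hint x hx.1) ?_ (hcat x hx0)
    exact ContinuousOn.stronglyMeasurableAtFilter isOpen_Ioi hg x hx0
  have hE : ∀ x ∈ Set.uIcc (1 : ℝ) T, HasDerivAt (fun u : ℝ => Real.exp (-κ * u ^ 2))
      (Real.exp (-κ * x ^ 2) * (-κ * (2 * x))) x := by
    intro x _
    have h1 : HasDerivAt (fun u : ℝ => -κ * u ^ 2) (-κ * (2 * x)) x := by
      have := (hasDerivAt_pow 2 x).const_mul (-κ)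
      simpa using this
    exact h1.exp
  have hparts := intervalIntegral.integral_deriv_mul_eq_sub hG hE hint' (by
    apply Continuous.intervalIntegrable; fun_prop)
  have hGcont : ContinuousOn (fun u : ℝ => ∫ y in (1 : ℝ)..u, g y) (Set.uIcc 1 T) :=
    fun x hx => (hG x hx).continuousAt.continuousWithinAt
  have i1 : IntervalIntegrable (fun x => g x * Real.exp (-κ * x ^ 2)) volume 1 T := by
    apply ContinuousOn.intervalIntegrable
    refine ContinuousOn.mul (fun x hx => (hcat x (hpos x hx)).continuousWithinAt) (by fun_prop)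
  have i2 : IntervalIntegrable (fun x => (∫ y in (1 : ℝ)..x, g y) *
      (Real.exp (-κ * x ^ 2) * (-κ * (2 * x)))) volume 1 T := by
    apply ContinuousOn.intervalIntegrable
    exact hGcont.mul (by fun_prop)
  rw [intervalIntegral.integral_add i1 i2, intervalIntegral.integral_same, zero_mul, sub_zero]
    at hparts
  have h1 : -(∫ x in (1 : ℝ)..T, (∫ y in (1 : ℝ)..x, g y) *
      (Real.exp (-κ * x ^ 2) * (-κ * (2 * x)))) ≤
      2 * κ * M * ∫ x in (1 : ℝ)..T, x ^ (2 + δ) * Real.exp (-κ * x ^ 2) := by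
    rw [← intervalIntegral.integral_neg, ← intervalIntegral.integral_const_mul]
    refine intervalIntegral.integral_mono_on hT1 i2.neg ?_ ?_
    · apply ContinuousOn.intervalIntegrable
      refine ContinuousOn.mul continuousOn_const (ContinuousOn.mul ?_ (by fun_prop))
      refine ContinuousOn.rpow_const continuousOn_id ?_
      intro y hy
      exact Or.inl (hpos y hy).ne'
    · intro x hx
      have hx0 : 0 < x := by linarith [hx.1]
      have h2 := hmom x hx.1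
      have h3 : x ^ (2 + δ) = x ^ (1 + δ) * x := by
        rw [← Real.rpow_add_one hx0.ne']; congr 1; ring
      have h4 : 0 ≤ Real.exp (-κ * x ^ 2) * (κ * (2 * x)) := by positivity
      calc -((∫ y in (1 : ℝ)..x, g y) * (Real.exp (-κ * x ^ 2) * (-κ * (2 * x))))
          = (∫ y in (1 : ℝ)..x, g y) * (Real.exp (-κ * x ^ 2) * (κ * (2 * x))) := by ring
        _ ≤ (M * x ^ (1 + δ)) * (Real.exp (-κ * x ^ 2) * (κ * (2 * x))) :=
            mul_le_mul_of_nonneg_right h2 h4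
        _ = 2 * κ * M * (x ^ (2 + δ) * Real.exp (-κ * x ^ 2)) := by
            rw [h3]; ring
  have h2 : 2 * κ * M * ∫ x in (1 : ℝ)..T, x ^ (2 + δ) * Real.exp (-κ * x ^ 2) ≤
      M * (κ ^ (-(δ + 1) / 2) * Real.Gamma ((3 + δ) / 2)) := by
    have h3 := Jk_part (ε := 2 + δ) (by linarith) hκ hT1
    rw [Jk_eq (by linarith) hκ] at h3
    have e1 : (2 + δ + 1) / 2 = (3 + δ) / 2 := by ring
    rw [e1] at h3
    have e2 : κ ^ (-(δ + 1) / 2) = κ * κ ^ (-(2 + δ + 1) / 2) := by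
      have : κ * κ ^ (-(2 + δ + 1) / 2) = κ ^ (1 : ℝ) * κ ^ (-(2 + δ + 1) / 2) := by
        rw [Real.rpow_one]
      rw [this, ← Real.rpow_add hκ]
      congr 1; ring
    rw [e2]
    calc 2 * κ * M * ∫ x in (1 : ℝ)..T, x ^ (2 + δ) * Real.exp (-κ * x ^ 2)
        ≤ 2 * κ * M * (κ ^ (-(2 + δ + 1) / 2) * (1 / 2) * Real.Gamma ((3 + δ) / 2)) := by
          gcongr
      _ = _ := by ring
  have h3 : (∫ y in (1 : ℝ)..T, g y) * Real.exp (-κ * T ^ 2) ≤ M := by
    calc (∫ y in (1 : ℝ)..T, g y) * Real.exp (-κ * T ^ 2)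
        ≤ (M * T ^ (1 + δ)) * Real.exp (-κ * T ^ 2) :=
          mul_le_mul_of_nonneg_right (hmom T hT1) (Real.exp_pos _).le
      _ = M * (T ^ (1 + δ) * Real.exp (-κ * T ^ 2)) := by ring
      _ ≤ M * 1 := mul_le_mul_of_nonneg_left hT hM
      _ = M := mul_one _
  have h4 : ∫ x in (1 : ℝ)..T, g x * Real.exp (-κ * x ^ 2) =
      (∫ y in (1 : ℝ)..T, g y) * Real.exp (-κ * T ^ 2) +
      -(∫ x in (1 : ℝ)..T, (∫ y in (1 : ℝ)..x, g y) *
        (Real.exp (-κ * x ^ 2) * (-κ * (2 * x)))) := by linarith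
  rw [h4, mul_add, mul_one]
  linarith [h1.trans h2]

/-- the shift of the upper half of the line -/
lemma upper_bound' {F : ℂ → ℂ} {σ0 σ1 D M δ : ℝ} (h0 : 0 ≤ σ0) (h01 : σ0 ≤ σ1) (hD : 0 ≤ D)
    (hM : 0 ≤ M) (hδ : 0 < δ)
    (hdiff : ∀ s : ℂ, 0 < s.im → DifferentiableAt ℂ F s)
    (hgrow : ∀ x y : ℝ, σ0 ≤ x → x ≤ σ1 → 1 ≤ y →
      ‖F ((x : ℂ) + (y : ℂ) * I)‖ ≤ D * Real.exp (4 * y))
    (hmom : ∀ T : ℝ, 1 ≤ T → ∫ y in (1 : ℝ)..T, ‖F ((σ0 : ℂ) + (y : ℂ) * I)‖ ≤ M * T ^ (1 + δ))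
    {X κ : ℝ} (hX : 1 ≤ X) (hκ : 0 < κ) (hκ1 : κ ≤ 1) :
    ∀ᶠ T : ℝ in atTop, ‖∫ y in (1 : ℝ)..T, Hf F X κ ((σ1 : ℂ) + (y : ℂ) * I)‖ ≤
      (Real.exp (σ1 ^ 2) * (D * Real.exp 4 + D) * (σ1 - σ0)) * X ^ σ1 +
      (Real.exp (σ1 ^ 2) * M * (1 + Real.Gamma ((3 + δ) / 2))) *
        (X ^ σ0 * κ ^ (-(δ + 1) / 2)) := by
  have hgc : ContinuousOn (fun y : ℝ => ‖F ((σ0 : ℂ) + (y : ℂ) * I)‖) (Ioi 0) := by
    intro y hy
    have hy0 : (0 : ℝ) < y := hy
    have h1 : ContinuousAt F ((σ0 : ℂ) + (y : ℂ) * I) := (hdiff _ (by simp [hy0])).continuousAt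
    have h2 : ContinuousAt (fun y : ℝ => (σ0 : ℂ) + (y : ℂ) * I) y := by fun_prop
    exact (ContinuousAt.comp (f := fun y : ℝ => (σ0 : ℂ) + (y : ℂ) * I) (g := F) h1
      h2).norm.continuousWithinAt
  filter_upwards [gauss_moment hgc hM hδ hκ hmom, eventually_ge_atTop (1 : ℝ),
    eventually_ge_atTop (4 / κ)] with T hT hT1 hT4
  have hX0 : 0 < X := by linarith
  set f : ℂ → ℂ := Hf F X κ with hf
  have hrect := Complex.integral_boundary_rect_eq_zero_of_differentiableOn f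
    ((σ0 : ℂ) + ((1 : ℝ) : ℂ) * I) ((σ1 : ℂ) + (T : ℂ) * I) (by
      intro s hs
      refine (Hf_diffAt (hdiff s ?_)).differentiableWithinAt
      rw [Complex.mem_reProdIm] at hs
      have h2 := hs.2
      simp only [add_im, ofReal_im, mul_im, ofReal_re, I_im, mul_one, I_re, mul_zero, zero_add,
        add_zero] at h2
      rw [Set.uIcc_of_le hT1] at h2
      linarith [h2.1])
  simp only [add_re, ofReal_re, mul_re, I_re, mul_zero, ofReal_im, I_im, mul_one, sub_self,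
    add_zero, add_im, mul_im, zero_add] at hrect
  set A := ∫ x in σ0..σ1, f ((x : ℂ) + ((1 : ℝ) : ℂ) * I) with hA
  set B := ∫ x in σ0..σ1, f ((x : ℂ) + (T : ℂ) * I) with hB
  set U := ∫ y in (1 : ℝ)..T, f ((σ1 : ℂ) + (y : ℂ) * I) with hU
  set V := ∫ y in (1 : ℝ)..T, f ((σ0 : ℂ) + (y : ℂ) * I) with hV
  have hIU : I * U = I * V - A + B := by
    simp only [smul_eq_mul] at hrect
    linear_combination hrect
  have hnU : ‖U‖ ≤ ‖V‖ + ‖A‖ + ‖B‖ := by
    have : ‖U‖ = ‖I * U‖ := by rw [norm_mul, Complex.norm_I, one_mul]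
    rw [this, hIU]
    calc ‖I * V - A + B‖ ≤ ‖I * V - A‖ + ‖B‖ := norm_add_le _ _
      _ ≤ ‖I * V‖ + ‖A‖ + ‖B‖ := by gcongr; exact norm_sub_le _ _
      _ = ‖V‖ + ‖A‖ + ‖B‖ := by rw [norm_mul, Complex.norm_I, one_mul]
  set E := Real.exp (σ1 ^ 2) with hE
  have hE0 : 0 < E := Real.exp_pos _
  have hEx : ∀ x, σ0 ≤ x → x ≤ σ1 → Real.exp (κ * x ^ 2) ≤ E := by
    intro x hx0 hx1
    apply Real.exp_le_exp.mpr
    have : x ^ 2 ≤ σ1 ^ 2 := pow_le_pow_left₀ (by linarith) hx1 2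
    nlinarith [sq_nonneg x]
  have hXmono : ∀ x, x ≤ σ1 → X ^ x ≤ X ^ σ1 := fun x hx => Real.rpow_le_rpow_of_exponent_le hX hx
  have hfn : ∀ x y : ℝ, σ0 ≤ x → x ≤ σ1 → 1 ≤ y →
      ‖f ((x : ℂ) + (y : ℂ) * I)‖ ≤
        (D * Real.exp (4 * y) * Real.exp (-κ * y ^ 2)) * (X ^ σ1 * E) := by
    intro x y hx0 hx1 hy
    rw [hf, Hf_norm F hX0 κ x y]
    have h1 := hgrow x y hx0 hx1 hy
    have h2 := hEx x hx0 hx1
    have h3 := hXmono x hx1
    have h4 : 0 < X ^ x := Real.rpow_pos_of_pos hX0 _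
    calc ‖F ((x : ℂ) + (y : ℂ) * I)‖ * (X ^ x * Real.exp (κ * x ^ 2) * Real.exp (-κ * y ^ 2))
        ≤ (D * Real.exp (4 * y)) * (X ^ σ1 * E * Real.exp (-κ * y ^ 2)) := by gcongr
      _ = _ := by ring
  have hAb : ‖A‖ ≤ (D * Real.exp 4) * (X ^ σ1 * E) * (σ1 - σ0) := by
    have := intervalIntegral.norm_integral_le_of_norm_le_const (a := σ0) (b := σ1)
      (C := (D * Real.exp 4) * (X ^ σ1 * E)) (f := fun x : ℝ => f ((x : ℂ) + ((1 : ℝ) : ℂ) * I)) (by
        intro x hx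
        rw [Set.uIoc_of_le h01] at hx
        refine (hfn x 1 hx.1.le hx.2 le_rfl).trans ?_
        have h1 : Real.exp (-κ * 1 ^ 2) ≤ 1 := by
          rw [Real.exp_le_one_iff]; nlinarith
        have h2 : 0 ≤ X ^ σ1 * E := by positivity
        refine mul_le_mul_of_nonneg_right ?_ h2
        rw [mul_one]
        exact mul_le_of_le_one_right (by positivity) h1)
    rwa [abs_of_nonneg (by linarith)] at this
  have hBb : ‖B‖ ≤ D * (X ^ σ1 * E) * (σ1 - σ0) := by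
    have := intervalIntegral.norm_integral_le_of_norm_le_const (a := σ0) (b := σ1)
      (C := D * (X ^ σ1 * E)) (f := fun x : ℝ => f ((x : ℂ) + (T : ℂ) * I)) (by
        intro x hx
        rw [Set.uIoc_of_le h01] at hx
        refine (hfn x T hx.1.le hx.2 hT1).trans ?_
        have h1 : Real.exp (4 * T) * Real.exp (-κ * T ^ 2) ≤ 1 := by
          rw [← Real.exp_add, Real.exp_le_one_iff]
          have h5 : 4 ≤ κ * T := by
            rw [div_le_iff₀ hκ] at hT4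
            linarith
          nlinarith
        have h2 : 0 ≤ X ^ σ1 * E := by positivity
        refine mul_le_mul_of_nonneg_right ?_ h2
        rw [mul_assoc]
        exact mul_le_of_le_one_right hD h1)
    rwa [abs_of_nonneg (by linarith)] at this
  have hVb : ‖V‖ ≤ (X ^ σ0 * E) * (M * (1 + κ ^ (-(δ + 1) / 2) * Real.Gamma ((3 + δ) / 2))) := by
    have h1 : ‖V‖ ≤ ∫ y in (1 : ℝ)..T, (X ^ σ0 * E) *
        (‖F ((σ0 : ℂ) + (y : ℂ) * I)‖ * Real.exp (-κ * y ^ 2)) := by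
      refine intervalIntegral.norm_integral_le_of_norm_le hT1 ?_ ?_
      · refine Eventually.of_forall (fun y hy => ?_)
        rw [hf, Hf_norm F hX0 κ σ0 y]
        have h2 := hEx σ0 le_rfl h01
        have h4 : 0 < X ^ σ0 := Real.rpow_pos_of_pos hX0 _
        calc ‖F ((σ0 : ℂ) + (y : ℂ) * I)‖ *
              (X ^ σ0 * Real.exp (κ * σ0 ^ 2) * Real.exp (-κ * y ^ 2))
            ≤ ‖F ((σ0 : ℂ) + (y : ℂ) * I)‖ * (X ^ σ0 * E * Real.exp (-κ * y ^ 2)) := by gcongr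
          _ = _ := by ring
      · apply ContinuousOn.intervalIntegrable
        refine ContinuousOn.mul continuousOn_const (ContinuousOn.mul ?_ (by fun_prop))
        refine hgc.mono ?_
        intro y hy
        rw [Set.uIcc_of_le hT1] at hy
        have : (0 : ℝ) < y := by linarith [hy.1]
        exact this
    refine h1.trans ?_
    rw [intervalIntegral.integral_const_mul]
    exact mul_le_mul_of_nonneg_left hT (by positivity)
  have hΓ0 : 0 < Real.Gamma ((3 + δ) / 2) := Real.Gamma_pos_of_pos (by linarith)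
  have hκp : 1 ≤ κ ^ (-(δ + 1) / 2) := by
    apply Real.one_le_rpow_of_pos_of_le_one_of_nonpos hκ hκ1
    linarith
  have hVb2 : (X ^ σ0 * E) * (M * (1 + κ ^ (-(δ + 1) / 2) * Real.Gamma ((3 + δ) / 2))) ≤
      (E * M * (1 + Real.Gamma ((3 + δ) / 2))) * (X ^ σ0 * κ ^ (-(δ + 1) / 2)) := by
    have h1 : 1 + κ ^ (-(δ + 1) / 2) * Real.Gamma ((3 + δ) / 2) ≤
        (1 + Real.Gamma ((3 + δ) / 2)) * κ ^ (-(δ + 1) / 2) := by nlinarith
    have h2 : 0 ≤ X ^ σ0 * E * M := by positivity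
    calc (X ^ σ0 * E) * (M * (1 + κ ^ (-(δ + 1) / 2) * Real.Gamma ((3 + δ) / 2)))
        = (X ^ σ0 * E * M) * (1 + κ ^ (-(δ + 1) / 2) * Real.Gamma ((3 + δ) / 2)) := by ring
      _ ≤ (X ^ σ0 * E * M) * ((1 + Real.Gamma ((3 + δ) / 2)) * κ ^ (-(δ + 1) / 2)) :=
          mul_le_mul_of_nonneg_left h1 h2
      _ = _ := by ring
  calc ‖U‖ ≤ ‖V‖ + ‖A‖ + ‖B‖ := hnU
    _ ≤ (E * M * (1 + Real.Gamma ((3 + δ) / 2))) * (X ^ σ0 * κ ^ (-(δ + 1) / 2)) +
        (D * Real.exp 4) * (X ^ σ1 * E) * (σ1 - σ0) + D * (X ^ σ1 * E) * (σ1 - σ0) := by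
        gcongr
        exact hVb.trans hVb2
    _ = _ := by ring

end

end Pool.Agent.V11154.BM
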