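import Pool.Agent.V11154.BM3

set_option autoImplicit false

/-!
Moments of the Barnes multiple zeta function, part 4: the counting inequality from a first moment
bound, and the conclusion for Liouville weights.
-/

namespace Pool.Agent.V11154.BM

open Finset Filter Topology MeasureTheory Complex Set
open Pool.Agent.H131R5.BZ

noncomputable section

/-- The counting inequality. -/
theorem main_ineq' {ι : Type} [Countable ι] {F : ℂ → ℂ} (lam : ι → ℝ) (hlam : ∀ m, 0 < lam m)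
    {σ0 σ1 D M δ : ℝ} (h0 : 0 ≤ σ0) (h01 : σ0 ≤ σ1) (hD : 0 ≤ D) (hM : 0 ≤ M)
    (hδ : 0 < δ) (hsum : Summable (fun m => (lam m) ^ (-σ1)))
    (hF : ∀ t : ℝ, HasSum (fun m => ((lam m : ℝ) : ℂ) ^ (-((σ1 : ℂ) + (t : ℂ) * I)))
      (F ((σ1 : ℂ) + (t : ℂ) * I)))
    (hdiff : ∀ s : ℂ, 0 < s.im → DifferentiableAt ℂ F s)
    (hgrow : ∀ x y : ℝ, σ0 ≤ x → x ≤ σ1 → 1 ≤ y →
      ‖F ((x : ℂ) + (y : ℂ) * I)‖ ≤ D * Real.exp (4 * y))
    (hmom : ∀ T : ℝ, 1 ≤ T → ∫ y in (1 : ℝ)..T, ‖F ((σ0 : ℂ) + (y : ℂ) * I)‖ ≤ M * T ^ (1 + δ)) :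
    ∃ K : ℝ, 0 < K ∧ ∀ X : ℝ, 1 ≤ X → ∀ κ : ℝ, 0 < κ → κ ≤ 1 →
      ∀ S : Finset ι, (∀ m ∈ S, (Real.log X - Real.log (lam m)) ^ 2 ≤ κ) →
        (S.card : ℝ) ≤ K * (Real.sqrt κ * X ^ σ1 + X ^ σ0 * κ ^ (-δ / 2)) := by
  set A : ℝ := ∑' m, (lam m) ^ (-σ1) with hA
  have hA0 : 0 ≤ A := tsum_nonneg (fun m => (Real.rpow_pos_of_pos (hlam m) _).le)
  have hΓ0 : 0 < Real.Gamma ((3 + δ) / 2) := Real.Gamma_pos_of_pos (by linarith)
  have h10 : 0 ≤ σ1 - σ0 := by linarith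
  set P : ℝ := Real.exp (σ1 ^ 2) * (D * Real.exp 4 + D) * (σ1 - σ0) with hP
  set Q : ℝ := Real.exp (σ1 ^ 2) * M * (1 + Real.Gamma ((3 + δ) / 2)) with hQ
  have hP0 : 0 ≤ P := by positivity
  have hQ0 : 0 ≤ Q := by positivity
  set K1 : ℝ := 2 * P + 2 * (A * Real.exp (σ1 ^ 2)) with hK1
  set K2 : ℝ := 2 * Q with hK2
  have hK10 : 0 ≤ K1 := by positivity
  have hK20 : 0 ≤ K2 := by positivity
  refine ⟨Real.exp 1 * (K1 + K2 + 1), by positivity, ?_⟩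
  intro X hX κ hκ hκ1 S hS
  have hX0 : 0 < X := by linarith
  set f : ℂ → ℂ := Hf F X κ with hf
  -- the total integral
  have hseries : ∀ t : ℝ, ∑' m, Ek σ1 κ (Real.log X - Real.log (lam m)) t =
      f ((σ1 : ℂ) + (t : ℂ) * I) := fun t => Hf_series F lam hlam hF X κ t
  have htot := sum_integral lam hlam hsum hX0 hκ
  simp only [hseries] at htot
  -- integrability of f on the line
  have hnorm : ∀ t : ℝ, ‖f ((σ1 : ℂ) + (t : ℂ) * I)‖ ≤
      A * (X ^ σ1 * Real.exp (κ * σ1 ^ 2)) * Real.exp (-κ * t ^ 2) := by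
    intro t
    rw [hf, Hf_norm F hX0 κ σ1 t]
    have h1 : ‖F ((σ1 : ℂ) + (t : ℂ) * I)‖ ≤ A := by
      rw [← (hF t).tsum_eq]
      have h2 : ∀ m, ‖((lam m : ℝ) : ℂ) ^ (-((σ1 : ℂ) + (t : ℂ) * I))‖ = (lam m) ^ (-σ1) := by
        intro m
        rw [Complex.norm_cpow_eq_rpow_re_of_pos (hlam m)]
        simp
      have h3 := norm_tsum_le_tsum_norm (f := fun m => ((lam m : ℝ) : ℂ) ^ (-((σ1 : ℂ) + (t : ℂ) * I)))
        (by simpa only [h2] using hsum)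
      simpa only [h2] using h3
    calc ‖F ((σ1 : ℂ) + (t : ℂ) * I)‖ * (X ^ σ1 * Real.exp (κ * σ1 ^ 2) * Real.exp (-κ * t ^ 2))
        ≤ A * (X ^ σ1 * Real.exp (κ * σ1 ^ 2) * Real.exp (-κ * t ^ 2)) := by
          gcongr
      _ = _ := by ring
  have hmeas : AEStronglyMeasurable (fun t : ℝ => f ((σ1 : ℂ) + (t : ℂ) * I)) volume := by
    have h1 : (fun t : ℝ => f ((σ1 : ℂ) + (t : ℂ) * I)) =
        fun t : ℝ => ∑' m, Ek σ1 κ (Real.log X - Real.log (lam m)) t := by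
      funext t; rw [hseries]
    rw [h1]
    exact (Measurable.tsum (fun m => (Ek_cont σ1 κ _).measurable)).aestronglyMeasurable
  have hint : Integrable (fun t : ℝ => f ((σ1 : ℂ) + (t : ℂ) * I)) := by
    refine Integrable.mono' ((integrable_exp_neg_mul_sq hκ).const_mul
      (A * (X ^ σ1 * Real.exp (κ * σ1 ^ 2)))) hmeas (Eventually.of_forall hnorm)
  -- upper part
  have hup : ‖∫ t in Ioi (1 : ℝ), f ((σ1 : ℂ) + (t : ℂ) * I)‖ ≤
      P * X ^ σ1 + Q * (X ^ σ0 * κ ^ (-(δ + 1) / 2)) := by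
    have h1 := intervalIntegral_tendsto_integral_Ioi (1 : ℝ) hint.integrableOn tendsto_id
    refine le_of_tendsto h1.norm ?_
    exact upper_bound' h0 h01 hD hM hδ hdiff hgrow hmom hX hκ hκ1
  -- lower part
  have hlow : ‖∫ t in Iic (-1 : ℝ), f ((σ1 : ℂ) + (t : ℂ) * I)‖ =
      ‖∫ t in Ioi (1 : ℝ), f ((σ1 : ℂ) + (t : ℂ) * I)‖ := by
    have h1 := integral_comp_neg_Ioi (1 : ℝ) (fun t : ℝ => f ((σ1 : ℂ) + (t : ℂ) * I))
    rw [← h1]
    have h2 : ∀ t : ℝ, f ((σ1 : ℂ) + ((-t : ℝ) : ℂ) * I) =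
        (starRingEnd ℂ) (f ((σ1 : ℂ) + (t : ℂ) * I)) := fun t => Hf_conj F lam hlam hF X κ t
    simp only [h2]
    rw [integral_conj]
    exact Complex.norm_conj _
  -- middle part
  have hmid : ‖∫ t in (-1 : ℝ)..1, f ((σ1 : ℂ) + (t : ℂ) * I)‖ ≤
      2 * (A * Real.exp (σ1 ^ 2)) * X ^ σ1 := by
    have := intervalIntegral.norm_integral_le_of_norm_le_const (a := (-1 : ℝ)) (b := 1)
      (C := A * (X ^ σ1 * Real.exp (σ1 ^ 2))) (f := fun t : ℝ => f ((σ1 : ℂ) + (t : ℂ) * I)) (by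
        intro t _
        refine (hnorm t).trans ?_
        have h1 : Real.exp (-κ * t ^ 2) ≤ 1 := by
          rw [Real.exp_le_one_iff]; nlinarith [sq_nonneg t]
        have h2 : Real.exp (κ * σ1 ^ 2) ≤ Real.exp (σ1 ^ 2) := by
          apply Real.exp_le_exp.mpr; nlinarith [sq_nonneg σ1]
        calc A * (X ^ σ1 * Real.exp (κ * σ1 ^ 2)) * Real.exp (-κ * t ^ 2)
            ≤ A * (X ^ σ1 * Real.exp (σ1 ^ 2)) * 1 := by gcongr
          _ = _ := by ring)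
    refine this.trans (le_of_eq ?_)
    norm_num
    ring
  have hsplit : ∫ t : ℝ, f ((σ1 : ℂ) + (t : ℂ) * I) =
      (∫ t in Iic (-1 : ℝ), f ((σ1 : ℂ) + (t : ℂ) * I)) +
      (∫ t in (-1 : ℝ)..1, f ((σ1 : ℂ) + (t : ℂ) * I)) +
      (∫ t in Ioi (1 : ℝ), f ((σ1 : ℂ) + (t : ℂ) * I)) := by
    rw [← intervalIntegral.integral_Iic_add_Ioi hint.integrableOn hint.integrableOn (b := (1 : ℝ))]
    congr 1
    have := intervalIntegral.integral_Iic_sub_Iic (a := (-1 : ℝ)) (b := 1) (μ := volume)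
      (f := fun t : ℝ => f ((σ1 : ℂ) + (t : ℂ) * I)) hint.integrableOn hint.integrableOn
    rw [← this]; ring
  have htotal : ‖∫ t : ℝ, f ((σ1 : ℂ) + (t : ℂ) * I)‖ ≤
      K1 * X ^ σ1 + K2 * (X ^ σ0 * κ ^ (-(δ + 1) / 2)) := by
    rw [hsplit]
    calc _ ≤ ‖∫ t in Iic (-1 : ℝ), f ((σ1 : ℂ) + (t : ℂ) * I)‖ +
        ‖∫ t in (-1 : ℝ)..1, f ((σ1 : ℂ) + (t : ℂ) * I)‖ +
        ‖∫ t in Ioi (1 : ℝ), f ((σ1 : ℂ) + (t : ℂ) * I)‖ :=
          (norm_add_le _ _).trans (by gcongr; exact norm_add_le _ _)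
      _ ≤ (P * X ^ σ1 + Q * (X ^ σ0 * κ ^ (-(δ + 1) / 2))) +
          2 * (A * Real.exp (σ1 ^ 2)) * X ^ σ1 +
          (P * X ^ σ1 + Q * (X ^ σ0 * κ ^ (-(δ + 1) / 2))) := by
          rw [hlow]; gcongr
      _ = _ := by
          rw [hK1, hK2]; ring
  -- the finite sum
  have hre : Real.sqrt (Real.pi / κ) *
      ∑ m ∈ S, Real.exp (-(Real.log X - Real.log (lam m)) ^ 2 / (4 * κ)) ≤
      K1 * X ^ σ1 + K2 * (X ^ σ0 * κ ^ (-(δ + 1) / 2)) := by
    have h1 := (Complex.hasSum_ofReal (f := fun m => Real.sqrt (Real.pi / κ) *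
      Real.exp (-(Real.log X - Real.log (lam m)) ^ 2 / (4 * κ)))
      (x := (∫ t : ℝ, f ((σ1 : ℂ) + (t : ℂ) * I)).re)).mp (by
        have h2 := Complex.hasSum_re htot
        simp only [Complex.ofReal_re] at h2
        exact Complex.hasSum_ofReal.mpr h2)
    rw [Finset.mul_sum]
    refine (sum_le_hasSum S (fun m _ => by positivity) h1).trans ?_
    exact (Complex.re_le_norm _).trans htotal
  have hcard : (S.card : ℝ) * Real.exp (-1) ≤
      ∑ m ∈ S, Real.exp (-(Real.log X - Real.log (lam m)) ^ 2 / (4 * κ)) := by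
    rw [← nsmul_eq_mul]
    refine Finset.card_nsmul_le_sum S _ _ (fun m hm => ?_)
    apply Real.exp_le_exp.mpr
    rw [neg_div]
    apply neg_le_neg
    rw [div_le_one (by positivity)]
    have := hS m hm
    linarith
  have hsq : 1 ≤ Real.sqrt κ * Real.sqrt (Real.pi / κ) := by
    rw [← Real.sqrt_mul hκ.le, mul_div_cancel₀ _ hκ.ne']
    rw [Real.one_le_sqrt]
    linarith [Real.pi_gt_three]
  have hpw : Real.sqrt κ * κ ^ (-(δ + 1) / 2) = κ ^ (-δ / 2) := by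
    rw [Real.sqrt_eq_rpow, ← Real.rpow_add hκ]
    congr 1; ring
  have hfin : (S.card : ℝ) * Real.exp (-1) ≤
      K1 * (Real.sqrt κ * X ^ σ1) + K2 * (X ^ σ0 * κ ^ (-δ / 2)) := by
    calc (S.card : ℝ) * Real.exp (-1)
        ≤ (Real.sqrt κ * Real.sqrt (Real.pi / κ)) * ((S.card : ℝ) * Real.exp (-1)) :=
          le_mul_of_one_le_left (by positivity) hsq
      _ ≤ (Real.sqrt κ * Real.sqrt (Real.pi / κ)) *
          ∑ m ∈ S, Real.exp (-(Real.log X - Real.log (lam m)) ^ 2 / (4 * κ)) := by gcongr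
      _ = Real.sqrt κ * (Real.sqrt (Real.pi / κ) *
          ∑ m ∈ S, Real.exp (-(Real.log X - Real.log (lam m)) ^ 2 / (4 * κ))) := by ring
      _ ≤ Real.sqrt κ * (K1 * X ^ σ1 + K2 * (X ^ σ0 * κ ^ (-(δ + 1) / 2))) := by gcongr
      _ = K1 * (Real.sqrt κ * X ^ σ1) + K2 * (X ^ σ0 * (Real.sqrt κ * κ ^ (-(δ + 1) / 2))) := by
          ring
      _ = _ := by rw [hpw]
  have hP1 : 0 ≤ Real.sqrt κ * X ^ σ1 := by positivity
  have hP2 : 0 ≤ X ^ σ0 * κ ^ (-δ / 2) := by positivity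
  calc (S.card : ℝ) = Real.exp 1 * ((S.card : ℝ) * Real.exp (-1)) := by
        rw [mul_comm (S.card : ℝ), ← mul_assoc, ← Real.exp_add]; simp
    _ ≤ Real.exp 1 * (K1 * (Real.sqrt κ * X ^ σ1) + K2 * (X ^ σ0 * κ ^ (-δ / 2))) := by gcongr
    _ ≤ Real.exp 1 * ((K1 + K2 + 1) * (Real.sqrt κ * X ^ σ1 + X ^ σ0 * κ ^ (-δ / 2))) := by
        gcongr
        nlinarith [mul_nonneg hK10 hP2, mul_nonneg hK20 hP1]
    _ = _ := by ring

/-- from the `2k`-th moment to the first moment -/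
lemma first_moment {g : ℝ → ℝ} (hg : ContinuousOn g (Ioi 0)) (hg0 : ∀ y, 0 ≤ g y) {k : ℕ}
    (hk : 1 ≤ k)
    (h : (fun T : ℝ => ∫ y in (1 : ℝ)..T, g y ^ (2 * k)) =O[atTop]
      fun T : ℝ => T ^ (1 + (k : ℝ) / 6)) :
    ∃ M : ℝ, 0 ≤ M ∧ ∀ T : ℝ, 1 ≤ T → ∫ y in (1 : ℝ)..T, g y ≤ M * T ^ (1 + (1 / 12 : ℝ)) := by
  have hcont : ∀ T : ℝ, 1 ≤ T → ContinuousOn g (Set.uIcc 1 T) := by
    intro T hT
    refine hg.mono ?_
    intro y hy
    rw [Set.uIcc_of_le hT] at hy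
    have : (0 : ℝ) < y := by linarith [hy.1]
    exact this
  have hmono : ∀ S T : ℝ, 1 ≤ S → S ≤ T →
      ∫ y in (1 : ℝ)..S, g y ^ (2 * k) ≤ ∫ y in (1 : ℝ)..T, g y ^ (2 * k) := by
    intro S T hS hST
    refine intervalIntegral.integral_mono_interval le_rfl hS hST ?_ ?_
    · exact Eventually.of_forall (fun y => pow_nonneg (hg0 y) _)
    · exact ((hcont T (hS.trans hST)).pow _).intervalIntegrable
  have hnn : ∀ T : ℝ, 1 ≤ T → 0 ≤ ∫ y in (1 : ℝ)..T, g y ^ (2 * k) := fun T hT =>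
    intervalIntegral.integral_nonneg hT (fun y _ => pow_nonneg (hg0 y) _)
  obtain ⟨C, hC⟩ := h.bound
  obtain ⟨T0, hT0⟩ := eventually_atTop.mp (hC.and (eventually_ge_atTop (1 : ℝ)))
  have hT01 : 1 ≤ max T0 1 := le_max_right _ _
  set C' : ℝ := max C 0 * (max T0 1) ^ (1 + (k : ℝ) / 6) + max C 0 with hC'
  have hC'0 : 0 ≤ C' := by positivity
  have hall : ∀ T : ℝ, 1 ≤ T → ∫ y in (1 : ℝ)..T, g y ^ (2 * k) ≤ C' * T ^ (1 + (k : ℝ) / 6) := by
    intro T hT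
    have hT1 : 1 ≤ T ^ (1 + (k : ℝ) / 6) := Real.one_le_rpow hT (by positivity)
    rcases le_total (max T0 1) T with h1 | h1
    · have h2 := (hT0 T ((le_max_left _ _).trans h1)).1
      rw [Real.norm_of_nonneg (hnn T hT), Real.norm_of_nonneg (by positivity)] at h2
      refine h2.trans ?_
      refine mul_le_mul_of_nonneg_right ?_ (by positivity)
      have : 0 ≤ max C 0 * (max T0 1) ^ (1 + (k : ℝ) / 6) := by positivity
      have h3 : C ≤ max C 0 := le_max_left _ _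
      rw [hC']; linarith
    · have h2 := (hT0 (max T0 1) (le_max_left _ _)).1
      rw [Real.norm_of_nonneg (hnn _ hT01), Real.norm_of_nonneg (by positivity)] at h2
      have h3 : C * (max T0 1) ^ (1 + (k : ℝ) / 6) ≤ C' := by
        have : C * (max T0 1) ^ (1 + (k : ℝ) / 6) ≤ max C 0 * (max T0 1) ^ (1 + (k : ℝ) / 6) :=
          mul_le_mul_of_nonneg_right (le_max_left _ _) (by positivity)
        have h4 : 0 ≤ max C 0 := le_max_right _ _
        rw [hC']; linarith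
      calc ∫ y in (1 : ℝ)..T, g y ^ (2 * k) ≤ ∫ y in (1 : ℝ)..(max T0 1), g y ^ (2 * k) :=
            hmono T _ hT h1
        _ ≤ C' := h2.trans h3
        _ ≤ C' * T ^ (1 + (k : ℝ) / 6) := le_mul_of_one_le_right hC'0 hT1
  refine ⟨1 + C', by positivity, ?_⟩
  intro T hT
  have hT0' : 0 < T := by linarith
  set l : ℝ := T ^ (1 / 12 : ℝ) with hl
  have hl0 : 0 < l := Real.rpow_pos_of_pos hT0' _
  obtain ⟨n, rfl⟩ : ∃ n, k = n + 1 := ⟨k - 1, by omega⟩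
  have hpt : ∀ y, g y ≤ l + g y ^ (2 * (n + 1)) / l ^ (2 * n + 1) := by
    intro y
    have h0 := hg0 y
    rcases le_total (g y) l with h1 | h1
    · have : 0 ≤ g y ^ (2 * (n + 1)) / l ^ (2 * n + 1) := by positivity
      linarith
    · have h2 : l ^ (2 * n + 1) ≤ g y ^ (2 * n + 1) := pow_le_pow_left₀ hl0.le h1 _
      have h3 : g y ≤ g y ^ (2 * (n + 1)) / l ^ (2 * n + 1) := by
        rw [le_div_iff₀ (by positivity)]
        calc g y * l ^ (2 * n + 1) ≤ g y * g y ^ (2 * n + 1) := by gcongr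
          _ = g y ^ (2 * (n + 1)) := by ring
      linarith
  have hint1 : IntervalIntegrable g volume 1 T := (hcont T hT).intervalIntegrable
  have hint2 : IntervalIntegrable (fun y => g y ^ (2 * (n + 1)) / l ^ (2 * n + 1)) volume 1 T :=
    (((hcont T hT).pow _).div_const _).intervalIntegrable
  have h1 : ∫ y in (1 : ℝ)..T, g y ≤
      ∫ y in (1 : ℝ)..T, (l + g y ^ (2 * (n + 1)) / l ^ (2 * n + 1)) := by
    refine intervalIntegral.integral_mono_on hT hint1 ?_ (fun y _ => hpt y)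
    exact (intervalIntegrable_const).add hint2
  rw [intervalIntegral.integral_add intervalIntegrable_const hint2,
    intervalIntegral.integral_const, intervalIntegral.integral_div, smul_eq_mul] at h1
  have h2 := hall T hT
  have h3 : (∫ y in (1 : ℝ)..T, g y ^ (2 * (n + 1))) / l ^ (2 * n + 1) ≤
      C' * T ^ (1 + (1 / 12 : ℝ)) := by
    rw [div_le_iff₀ (by positivity)]
    refine h2.trans (le_of_eq ?_)
    rw [mul_assoc]
    congr 1
    rw [hl, ← Real.rpow_natCast, ← Real.rpow_mul hT0'.le, ← Real.rpow_add hT0']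
    congr 1
    push_cast
    ring
  have h4 : (T - 1) * l ≤ T ^ (1 + (1 / 12 : ℝ)) := by
    rw [Real.rpow_add hT0', Real.rpow_one]
    exact mul_le_mul_of_nonneg_right (by linarith) hl0.le
  calc ∫ y in (1 : ℝ)..T, g y ≤ _ := h1
    _ ≤ T ^ (1 + (1 / 12 : ℝ)) + C' * T ^ (1 + (1 / 12 : ℝ)) := add_le_add h4 h3
    _ = _ := by ring

/-- no moment bound on the line `σ = 3/2` for the weights `(1, ξ, ξ²)`, `ξ` a Liouville number -/
theorem no_moment {ξ : ℝ} (hξ : 0 < ξ) (hL : Liouville ξ) {F : ℂ → ℂ}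
    (hF : DifferentiableOn ℂ F {s : ℂ | ∀ k : ℕ, 1 ≤ k → k ≤ 3 → s ≠ (k : ℂ)})
    (hF2 : ∀ s : ℂ, ((3 : ℕ) : ℝ) < s.re →
        HasSum (fun m : Fin 3 → ℕ => ((lam 1 (wv ξ) m : ℝ) : ℂ) ^ (-s)) (F s))
    {k : ℕ} (hk : 1 ≤ k) :
    ¬ (fun T : ℝ => ∫ t in (1 : ℝ)..T, ‖F (((3 / 2 : ℝ) : ℂ) + (t : ℂ) * I)‖ ^ (2 * k)) =O[atTop]
      fun T : ℝ => T ^ (1 + (k : ℝ) / 6) := by
  intro h
  have hw := wv_pos hξ
  have hdiff : ∀ s : ℂ, 0 < s.im → DifferentiableAt ℂ F s := by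
    intro s hs
    have h1 : IsOpen {s : ℂ | 0 < s.im} := isOpen_lt continuous_const Complex.continuous_im
    have h2 : {s : ℂ | 0 < s.im} ⊆ {s : ℂ | ∀ k : ℕ, 1 ≤ k → k ≤ 3 → s ≠ (k : ℂ)} := by
      intro z hz k _ _ hzk
      have hz' : 0 < z.im := hz
      rw [hzk] at hz'
      simp at hz'
    exact (hF.mono h2).differentiableAt (h1.mem_nhds hs)
  have hgc : ContinuousOn (fun y : ℝ => ‖F (((3 / 2 : ℝ) : ℂ) + (y : ℂ) * I)‖) (Ioi 0) := by
    intro y hy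
    have hy0 : (0 : ℝ) < y := hy
    have h1 : ContinuousAt F (((3 / 2 : ℝ) : ℂ) + (y : ℂ) * I) :=
      (hdiff _ (by simp [hy0])).continuousAt
    have h2 : ContinuousAt (fun y : ℝ => ((3 / 2 : ℝ) : ℂ) + (y : ℂ) * I) y := by fun_prop
    exact (ContinuousAt.comp (f := fun y : ℝ => ((3 / 2 : ℝ) : ℂ) + (y : ℂ) * I) (g := F) h1
      h2).norm.continuousWithinAt
  obtain ⟨M, hM, hmom⟩ := first_moment hgc (fun y => norm_nonneg _) hk h
  obtain ⟨D, hD, hgrow⟩ := grow' one_pos hw hF hF2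
  obtain ⟨K, hK, hK2⟩ := main_ineq' (F := F) (lam 1 (wv ξ)) (lam_pos one_pos hw)
    (σ0 := 3 / 2) (σ1 := 4) (D := D) (M := M) (δ := 1 / 12) (by norm_num) (by norm_num) hD hM
    (by norm_num) (summable_lam one_pos hw (by norm_num))
    (fun t => hF2 _ (by simp; norm_num)) hdiff hgrow hmom
  exact no_bound hξ hL hK hK2

end

end Pool.Agent.V11154.BM
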